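import Mathlib
import Pool.Agent.R630.ML.Ct

/-!
# Malle's conjecture for `C₂ ≀ (P ≀ A_r)`, `P` the commutator subgroup of `A ≀ S_n`

`A` is any finite group (perfect or not, solvable or not, realizable or not), `n` is at least
`((3 |A| + 2)!) ^ 3`, and `P` is the commutator subgroup of `A ≀ S_n`, the group of the elements
`(f, σ)` with `∏ [f i] = 1` in the abelianization of `A` and `σ` even. For all large `r = 8 k + 4`,
Malle's conjecture holds for `C₂ ≀ H`, `H = P ≀ A_r`, over all number fields; here `H` acts on itself by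
multiplication, and `C₂ ≀ H` acts on `H × {0, 1}`.
-/

set_option autoImplicit false

open Filter

namespace Pool.Agent.Results.MP_a3214d_nt.CommutatorTowers

/-- The wreath product `A ≀ S_n = A ^ n ⋊ S_n`. -/
abbrev Wreath (A : Type) [Group A] (n : ℕ) : Type :=
  (Fin n → A) ⋊[mulAutArrow] Equiv.Perm (Fin n)

/-- The commutator subgroup of the wreath product `A ≀ S_n`, as a group. -/
def CommWreath (A : Type) [Group A] (n : ℕ) : Type := commutator (Wreath A n)

/-- Its group structure. -/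
instance instGroup (A : Type) [Group A] (n : ℕ) : Group (CommWreath A n) :=
  inferInstanceAs (Group (commutator (Wreath A n)))

/-- The alternating wreath product `A ≀ A_n`: the elements of `A ≀ S_n` over even permutations. -/
def AltWreath (A : Type) [Group A] (n : ℕ) : Type :=
  (Equiv.Perm.sign.comp (SemidirectProduct.rightHom : Wreath A n →* Equiv.Perm (Fin n))).ker

/-- Its group structure. -/
instance instGroup2 (A : Type) [Group A] (n : ℕ) : Group (AltWreath A n) :=
  inferInstanceAs (Group (Equiv.Perm.sign.comp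
    (SemidirectProduct.rightHom : Wreath A n →* Equiv.Perm (Fin n))).ker)

/-- `G ≤ S_d` is, up to a bijection `f` of `{1, ..., d}` with `H × {0, 1}`, the wreath product
`C₂ ≀ H`: it consists of all permutations `π` for which there is `h ∈ H` such that `π` maps the block
`{x} × {0, 1}` to the block `{h x} × {0, 1}`, for all `x ∈ H`. -/
def IsC2Wreath (H : Type) [Group H] {d : ℕ} (G : Subgroup (Equiv.Perm (Fin d))) : Prop :=
  ∃ f : Fin d ≃ H × Bool, ∀ π : Equiv.Perm (Fin d), π ∈ G ↔ ∃ h : H, ∀ i, (f (π i)).1 = h * (f i).1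

/-- The fields `L` between `K` and its algebraic closure, of degree `d` over `K`, whose Galois group,
acting on the embeddings, is `G` (up to numbering), and whose relative discriminant has norm at most
`B` (that is, `|d_L| ≤ B |d_K| ^ d`). -/
def Ext (K : Type) [Field K] [NumberField K] (d : ℕ) (G : Subgroup (Equiv.Perm (Fin d)))
    (B : ℝ) : Set (IntermediateField K (AlgebraicClosure K)) :=
  {L | Module.finrank K L = d ∧
    (∃ e : (L →ₐ[K] AlgebraicClosure K) ≃ Fin d, ∀ π : Equiv.Perm (Fin d),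
      π ∈ G ↔ ∃ σ : AlgebraicClosure K ≃ₐ[K] AlgebraicClosure K,
        ∀ φ : L →ₐ[K] AlgebraicClosure K, e (σ.toAlgHom.comp φ) = π (e φ)) ∧
    ∃ h : NumberField L,
      ((|@NumberField.discr L _ h| : ℤ) : ℝ) ≤ B * ((|NumberField.discr K| : ℤ) : ℝ) ^ d}

/-- `N(K, G; B)`: the number of these fields up to `K`-isomorphism. -/
noncomputable def N (K : Type) [Field K] [NumberField K] (d : ℕ)
    (G : Subgroup (Equiv.Perm (Fin d))) (B : ℝ) : ℕ :=
  Nat.card (Quot fun L L' : Ext K d G B => Nonempty (L.1 ≃ₐ[K] L'.1))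

/-- The conclusion of Malle's conjecture for `G`, over all number fields: there is `a > 0` such that
for every number field `K` there are `c > 0` and `b ≥ 1` with
`N(K, G; B) ~ c B ^ a (log B) ^ (b - 1)`. -/
def Malle (d : ℕ) (G : Subgroup (Equiv.Perm (Fin d))) : Prop :=
  ∃ a : ℝ, 0 < a ∧ ∀ (K : Type) [Field K] [NumberField K], ∃ (c : ℝ) (b : ℕ), 0 < c ∧ 1 ≤ b ∧
    Tendsto (fun B : ℝ => (N K d G B : ℝ) / (B ^ a * Real.log B ^ (b - 1))) atTop (nhds c)

/-- The group `C₂ ≀ H` exists, and is transitive. -/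
theorem exists_group (H : Type) [Group H] [Finite H] : ∃ (d : ℕ)
    (G : Subgroup (Equiv.Perm (Fin d))), d = 2 * Nat.card H ∧ IsC2Wreath H G ∧
      ∀ i j : Fin d, ∃ g ∈ G, g i = j := by
  have hcard : Nat.card (H × Bool) = 2 * Nat.card H := by
    rw [Nat.card_prod, mul_comm]
    simp
  let f : Fin (2 * Nat.card H) ≃ H × Bool := (Finite.equivFinOfCardEq hcard).symm
  let G : Subgroup (Equiv.Perm (Fin (2 * Nat.card H))) :=
    { carrier := {π | ∃ h : H, ∀ i, (f (π i)).1 = h * (f i).1}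
      one_mem' := ⟨1, fun i => by simp⟩
      mul_mem' := by
        rintro π ρ ⟨h, hh⟩ ⟨h', hh'⟩
        refine ⟨h * h', fun i => ?_⟩
        rw [Equiv.Perm.mul_apply, hh, hh', mul_assoc]
      inv_mem' := by
        rintro π ⟨h, hh⟩
        refine ⟨h⁻¹, fun i => ?_⟩
        have h1 := hh (π⁻¹ i)
        rw [show π (π⁻¹ i) = i from π.apply_symm_apply i] at h1
        rw [h1, inv_mul_cancel_left] }
  refine ⟨2 * Nat.card H, G, rfl, ⟨f, fun π => Iff.rfl⟩, fun i j => ?_⟩
  let t : Equiv.Perm (H × Bool) :=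
    (Equiv.mulLeft ((f j).1 * (f i).1⁻¹)).prodCongr (Equiv.swap (f i).2 (f j).2)
  refine ⟨f.trans (t.trans f.symm), ⟨(f j).1 * (f i).1⁻¹, fun x => ?_⟩, ?_⟩
  · simp [t]
  · change f.symm (t (f i)) = j
    rw [Equiv.symm_apply_eq]
    exact Prod.ext (by simp [t]) (by simp [t])

theorem of_data (K : Type) [Field K] [NumberField K] (H : Type) [Group H] [Finite H]
    (h2 : 2 ≤ Nat.card H) (U : Subgroup H) (hU : U.normalCore = ⊥)
    (hc : 8 * U.index * (U.index + 1) ≤ Nat.card H)
    (hne : (Pool.Agent.TH444.ML.Gal K (AlgebraicClosure K) H).Nonempty) (d : ℕ)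
    (G : Subgroup (Equiv.Perm (Fin d))) (hG : IsC2Wreath H G) : ∃ c : ℝ, 0 < c ∧
      Tendsto (fun B : ℝ => (N K d G B : ℝ) / B) atTop (nhds c) :=
  Pool.Agent.TH444.ML.asymp_iso Pool.Agent.TH444.ML.rest K H h2 U hU hc hne G hG

end Pool.Agent.Results.MP_a3214d_nt.CommutatorTowers

open Pool.Agent.Results.MP_a3214d_nt.CommutatorTowers in
/-- Malle's conjecture over all number fields for `C₂ ≀ (P ≀ A_r)`, `P` the commutator subgroup of
`A ≀ S_n`, `A` any finite group, `n ≥ ((3 |A| + 2)!) ^ 3` and `r = 8 k + 4` large. The permutation group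
`C₂ ≀ (P ≀ A_r)` exists and is transitive. -/
theorem Pool.Agent.Results.MP_a3214d_nt.CommutatorTowers.result :
    ∀ (A : Type) [Group A] [Finite A] (n : ℕ), ((3 * Nat.card A + 2).factorial) ^ 3 ≤ n →
      ∃ k₀ : ℕ, ∀ k ≥ k₀,
        (∃ (d : ℕ) (G : Subgroup (Equiv.Perm (Fin d))),
          d = 2 * Nat.card (AltWreath (CommWreath A n) (8 * k + 4)) ∧
          IsC2Wreath (AltWreath (CommWreath A n) (8 * k + 4)) G ∧
          ∀ i j : Fin d, ∃ g ∈ G, g i = j) ∧
        ∀ (d : ℕ) (G : Subgroup (Equiv.Perm (Fin d))),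
          IsC2Wreath (AltWreath (CommWreath A n) (8 * k + 4)) G → Malle d G ∧
          ∀ (K : Type) [Field K] [NumberField K], ∃ c : ℝ, 0 < c ∧
            Tendsto (fun B : ℝ => (N K d G B : ℝ) / B) atTop (nhds c) := by
  intro A _ _ n hn
  obtain ⟨k₀, h2⟩ := Pool.Agent.R630.ML.comm_real A n hn
  refine ⟨k₀, fun k hk => ?_⟩
  obtain ⟨hf, hc, ⟨U, hU, hi⟩, hr⟩ := h2 k hk
  refine ⟨@exists_group (AltWreath (CommWreath A n) (8 * k + 4)) _ hf, fun d G hG => ?_⟩
  have key : ∀ (K : Type) [Field K] [NumberField K], ∃ c : ℝ, 0 < c ∧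
      Tendsto (fun B : ℝ => (N K d G B : ℝ) / B) atTop (nhds c) := fun K _ _ =>
    @of_data K _ _ (AltWreath (CommWreath A n) (8 * k + 4)) _ hf hc U hU hi (hr K) d G hG
  refine ⟨⟨1, one_pos, fun K _ _ => ?_⟩, key⟩
  obtain ⟨c, hc0, hlim⟩ := key K
  refine ⟨c, 1, hc0, le_rfl, ?_⟩
  simpa using hlim
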