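import Mathlib
import Pool.Agent.R70.MA.NormOne

/-!
# Malle's conjecture for the wreath products `C₂ ≀ (N ⋊ Γ)`, `N` the norm-one subgroup of `A ≀ S_n`

`A` is any finite group, `n ≥ ((3 |A| + 2)!) ^ 3`, and `N` is the group of the elements `(f, σ)` of
`A ≀ S_n` with `∏ [f i] = 1` in the abelianization of `A`; for `A` cyclic of order `m` this is the
complex reflection group `G(m, m, n)`. The number of isomorphism classes of extensions with group
`C₂ ≀ N` (acting on `N × {0, 1}`), of every number field `K`, with discriminant of norm at most `B`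
is asymptotic to `c B`. More generally this holds over `K` for `C₂ ≀ (N ⋊ Γ)` if `Γ` is any Galois
group over `K`, acting in any way on `A`, and `n ≥ ((3 |A| |Γ| + 2)!) ^ 3`.
-/

set_option autoImplicit false

open Filter

namespace Pool.Agent.Results.MP_a3214d_nt.NormOneSemidirect

/-- The elements `(f, σ)` of `A ≀ S_n = A^n ⋊ S_n` with `∏ [f i] = 1` in the abelianization
of `A`. -/
def NormOne (A : Type) [Group A] (n : ℕ) :
    Subgroup ((Fin n → A) ⋊[mulAutArrow] Equiv.Perm (Fin n)) where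
  carrier := {x | ∏ i, Abelianization.of (x.left i) = 1}
  mul_mem' := (Pool.Agent.R70.MA.NW A n).mul_mem'
  one_mem' := (Pool.Agent.R70.MA.NW A n).one_mem'
  inv_mem' := (Pool.Agent.R70.MA.NW A n).inv_mem'

/-- The coordinatewise action of `Γ` on `A ≀ S_n` which is given by an action `φ` of `Γ` on `A`. -/
abbrev coordAct {Γ A : Type} [Group Γ] [Group A] (φ : Γ →* MulAut A) (n : ℕ) :
    Γ →* MulAut ((Fin n → A) ⋊[mulAutArrow] Equiv.Perm (Fin n)) :=
  Pool.Agent.H391R2.T4.wrAct φ n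

/-- `N ⋊ Γ` as a subgroup of `(A ≀ S_n) ⋊ Γ`: the elements `((f, σ), ρ)` with `∏ [f i] = 1` in the
abelianization of `A`. -/
def NormOneBy {Γ A : Type} [Group Γ] [Group A] (φ : Γ →* MulAut A) (n : ℕ) :
    Subgroup (((Fin n → A) ⋊[mulAutArrow] Equiv.Perm (Fin n)) ⋊[coordAct φ n] Γ) where
  carrier := {x | ∏ i, Abelianization.of (x.left.left i) = 1}
  mul_mem' := (Pool.Agent.R367.IG.NO φ n).mul_mem'
  one_mem' := (Pool.Agent.R367.IG.NO φ n).one_mem'
  inv_mem' := (Pool.Agent.R367.IG.NO φ n).inv_mem'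

/-- `Γ` is a Galois group over `K`. -/
def IsGaloisGroupOver (K Γ : Type) [Field K] [Group Γ] : Prop :=
  ∃ (L : Type) (_ : Field L) (_ : Algebra K L), IsGalois K L ∧ Nonempty (Γ ≃* (L ≃ₐ[K] L))

/-- `G ≤ S_d` is, up to a bijection `f` of `{1, ..., d}` with `H × {0, 1}`, the wreath product
`C₂ ≀ H`: it consists of all permutations `π` for which there is `h ∈ H` such that `π` maps the block
`{x} × {0, 1}` to the block `{h x} × {0, 1}`, for all `x ∈ H`. -/
def IsC2Wreath (H : Type) [Group H] {d : ℕ} (G : Subgroup (Equiv.Perm (Fin d))) : Prop :=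
  ∃ f : Fin d ≃ H × Bool, ∀ π : Equiv.Perm (Fin d), π ∈ G ↔ ∃ h : H, ∀ i, (f (π i)).1 = h * (f i).1

/-- The fields `L` between `K` and its algebraic closure, of degree `d` over `K`, whose Galois group,
acting on the embeddings, is `G` (up to numbering), and whose relative discriminant has norm at most
`B` (that is, `|d_L| ≤ B |d_K| ^ d`). -/
def Ext (K : Type) [Field K] [NumberField K] (d : ℕ) (G : Subgroup (Equiv.Perm (Fin d)))
    (B : ℝ) : Set (IntermediateField K (AlgebraicClosure K)) :=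
  {L | Module.finrank K L = d ∧
    (∃ e : (L →ₐ[K] AlgebraicClosure K) ≃ Fin d, ∀ π : Equiv.Perm (Fin d),
      π ∈ G ↔ ∃ σ : AlgebraicClosure K ≃ₐ[K] AlgebraicClosure K,
        ∀ φ : L →ₐ[K] AlgebraicClosure K, e (σ.toAlgHom.comp φ) = π (e φ)) ∧
    ∃ h : NumberField L,
      ((|@NumberField.discr L _ h| : ℤ) : ℝ) ≤ B * ((|NumberField.discr K| : ℤ) : ℝ) ^ d}

/-- `N(K, G; B)`: the number of these fields up to `K`-isomorphism. -/
noncomputable def N (K : Type) [Field K] [NumberField K] (d : ℕ)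
    (G : Subgroup (Equiv.Perm (Fin d))) (B : ℝ) : ℕ :=
  Nat.card (Quot fun L L' : Ext K d G B => Nonempty (L.1 ≃ₐ[K] L'.1))

/-- The conclusion of Malle's conjecture for `G`, over all number fields: there is `a > 0` such that
for every number field `K` there are `c > 0` and `b ≥ 1` with
`N(K, G; B) ~ c B ^ a (log B) ^ (b - 1)`. -/
def Malle (d : ℕ) (G : Subgroup (Equiv.Perm (Fin d))) : Prop :=
  ∃ a : ℝ, 0 < a ∧ ∀ (K : Type) [Field K] [NumberField K], ∃ (c : ℝ) (b : ℕ), 0 < c ∧ 1 ≤ b ∧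
    Tendsto (fun B : ℝ => (N K d G B : ℝ) / (B ^ a * Real.log B ^ (b - 1))) atTop (nhds c)

/-- The group `C₂ ≀ H` exists, and is transitive. -/
theorem exists_group (H : Type) [Group H] [Finite H] : ∃ (d : ℕ)
    (G : Subgroup (Equiv.Perm (Fin d))), d = 2 * Nat.card H ∧ IsC2Wreath H G ∧
      ∀ i j : Fin d, ∃ g ∈ G, g i = j := by
  have hcard : Nat.card (H × Bool) = 2 * Nat.card H := by
    rw [Nat.card_prod, mul_comm]
    simp
  let f : Fin (2 * Nat.card H) ≃ H × Bool := (Finite.equivFinOfCardEq hcard).symm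
  let G : Subgroup (Equiv.Perm (Fin (2 * Nat.card H))) :=
    { carrier := {π | ∃ h : H, ∀ i, (f (π i)).1 = h * (f i).1}
      one_mem' := ⟨1, fun i => by simp⟩
      mul_mem' := by
        rintro π ρ ⟨h, hh⟩ ⟨h', hh'⟩
        refine ⟨h * h', fun i => ?_⟩
        rw [Equiv.Perm.mul_apply, hh, hh', mul_assoc]
      inv_mem' := by
        rintro π ⟨h, hh⟩
        refine ⟨h⁻¹, fun i => ?_⟩
        have h1 := hh (π⁻¹ i)
        rw [show π (π⁻¹ i) = i from π.apply_symm_apply i] at h1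
        rw [h1, inv_mul_cancel_left] }
  refine ⟨2 * Nat.card H, G, rfl, ⟨f, fun π => Iff.rfl⟩, fun i j => ?_⟩
  let t : Equiv.Perm (H × Bool) :=
    (Equiv.mulLeft ((f j).1 * (f i).1⁻¹)).prodCongr (Equiv.swap (f i).2 (f j).2)
  refine ⟨f.trans (t.trans f.symm), ⟨(f j).1 * (f i).1⁻¹, fun x => ?_⟩, ?_⟩
  · simp [t]
  · change f.symm (t (f i)) = j
    rw [Equiv.symm_apply_eq]
    exact Prod.ext (by simp [t]) (by simp [t])

theorem of_data (K : Type) [Field K] [NumberField K] (H : Type) [Group H] [Finite H]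
    (h2 : 2 ≤ Nat.card H) (U : Subgroup H) (hU : U.normalCore = ⊥)
    (hc : 8 * U.index * (U.index + 1) ≤ Nat.card H)
    (hne : (Pool.Agent.TH444.ML.Gal K (AlgebraicClosure K) H).Nonempty) (d : ℕ)
    (G : Subgroup (Equiv.Perm (Fin d))) (hG : IsC2Wreath H G) : ∃ c : ℝ, 0 < c ∧
      Tendsto (fun B : ℝ => (N K d G B : ℝ) / B) atTop (nhds c) :=
  Pool.Agent.TH444.ML.asymp_iso Pool.Agent.TH444.ML.rest K H h2 U hU hc hne G hG

end Pool.Agent.Results.MP_a3214d_nt.NormOneSemidirect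

open Pool.Agent.Results.MP_a3214d_nt.NormOneSemidirect in
/-- Malle's conjecture over all number fields for `C₂ ≀ N`, `N` the norm-one subgroup of `A ≀ S_n`
(first part), and over `K` for `C₂ ≀ (N ⋊ Γ)`, `Γ` any Galois group over `K` acting on `A` (second
part). The last part says that the permutation groups `C₂ ≀ H` exist and are transitive. -/
theorem Pool.Agent.Results.MP_a3214d_nt.NormOneSemidirect.result :
    (∀ (A : Type) [Group A] [Finite A] (n : ℕ), ((3 * Nat.card A + 2).factorial) ^ 3 ≤ n →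
      ∀ (d : ℕ) (G : Subgroup (Equiv.Perm (Fin d))), IsC2Wreath (NormOne A n) G →
        Malle d G ∧ ∀ (K : Type) [Field K] [NumberField K], ∃ c : ℝ, 0 < c ∧
          Tendsto (fun B : ℝ => (N K d G B : ℝ) / B) atTop (nhds c)) ∧
    (∀ (K : Type) [Field K] [NumberField K] (Γ : Type) [Group Γ] [Finite Γ],
      IsGaloisGroupOver K Γ → ∀ (A : Type) [Group A] [Finite A] (φ : Γ →* MulAut A) (n : ℕ),
      ((3 * (Nat.card A * Nat.card Γ) + 2).factorial) ^ 3 ≤ n →
      ∀ (d : ℕ) (G : Subgroup (Equiv.Perm (Fin d))), IsC2Wreath (NormOneBy φ n) G →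
        ∃ c : ℝ, 0 < c ∧ Tendsto (fun B : ℝ => (N K d G B : ℝ) / B) atTop (nhds c)) ∧
    (∀ (H : Type) [Group H] [Finite H], ∃ (d : ℕ) (G : Subgroup (Equiv.Perm (Fin d))),
      d = 2 * Nat.card H ∧ IsC2Wreath H G ∧ ∀ i j : Fin d, ∃ g ∈ G, g i = j) := by
  refine ⟨?_, ?_, fun H _ _ => exists_group H⟩
  · intro A _ _ n hn d G hG
    have hf : Finite (NormOne A n) := Pool.Agent.R70.MA.finite_nw A n
    obtain ⟨U, hU, hc⟩ := Pool.Agent.R70.MA.small_nw A n hn
    have key : ∀ (K : Type) [Field K] [NumberField K], ∃ c : ℝ, 0 < c ∧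
        Tendsto (fun B : ℝ => (N K d G B : ℝ) / B) atTop (nhds c) := fun K _ _ =>
      @of_data K _ _ (NormOne A n) _ hf (Pool.Agent.R70.MA.two_le_card hc) U hU hc
        (Pool.Agent.R70.MA.gal_nw K A n hn) d G hG
    refine ⟨⟨1, one_pos, fun K _ _ => ?_⟩, key⟩
    obtain ⟨c, hc0, hlim⟩ := key K
    refine ⟨c, 1, hc0, le_rfl, ?_⟩
    simpa using hlim
  · intro K _ _ Γ _ _ hΓ A _ _ φ n hn d G hG
    have hf : Finite (NormOneBy φ n) := Pool.Agent.R70.MA.finite_no φ n
    obtain ⟨U, hU, hc⟩ := Pool.Agent.R70.MA.small φ n hn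
    obtain ⟨L, i1, i2, i3, ⟨e⟩⟩ := hΓ
    exact @of_data K _ _ (NormOneBy φ n) _ hf (Pool.Agent.R70.MA.two_le_card hc) U hU hc
      (Pool.Agent.R70.MA.gal_no φ n K ⟨⟨⟨L, i1, i2, i3, e⟩⟩⟩ (Pool.Agent.R70.MA.bound_mono n hn))
      d G hG
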